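import Mathlib
import Pool.Agent.MP_5c8b6d_co.je.H

namespace Pool.Agent.Results.MP_5c8b6d_co.JoinDegOne

/-- The question for all orders and all `r` when the graph is the join of an arbitrary graph with
a nonempty graph of maximum degree at most one. -/
theorem result : ∀ (n r : ℕ), 1 ≤ r → r ≤ n →
    ∀ (G : SimpleGraph (Fin (2 * n + 1))) [DecidableRel G.Adj],
      G.maxDegree = 2 * n + 1 - r →
      (∃ I : Finset (Fin (2 * n + 1)), I.Nonempty ∧ (∀ x ∈ I, ∀ v, v ∉ I → G.Adj x v) ∧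
        ∀ x ∈ I, ∀ u ∈ I, ∀ v ∈ I, G.Adj x u → G.Adj x v → u = v) →
      (G.lineGraph.chromaticNumber = ((G.maxDegree + 1 : ℕ) : ℕ∞) ↔
        ∃ s : ℕ, 2 * s + 1 ≤ r ∧
          ∃ S : Finset (Fin (2 * n + 1)), S.card = 2 * s ∧
            ((({e ∈ G.edgeSet | ∀ v ∈ S, v ∉ e}).ncard : ℤ) >
              (((2 * n + 1 - 2 * s).choose 2 : ℕ) : ℤ) - ((r : ℤ) - 2 * s) * ((n : ℤ) - s))) :=
  fun n r h1 hr G _ hΔ hJ => Pool.Agent.MP_5c8b6d_co.JE.main n r h1 hr G hΔ hJ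

end Pool.Agent.Results.MP_5c8b6d_co.JoinDegOne
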