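import Mathlib
import Pool.Agent.MP_5c8b6d_co.Top

namespace Pool.Agent.Results.MP_5c8b6d_co.LargeOrder

/-- The question for all large orders and the whole range of `r`. -/
theorem result : ∃ n0 : ℕ, ∀ (n r : ℕ), n0 ≤ n → 1 ≤ r → r ≤ n →
    ∀ (G : SimpleGraph (Fin (2 * n + 1))) [DecidableRel G.Adj],
      G.maxDegree = 2 * n + 1 - r →
      (G.lineGraph.chromaticNumber = ((G.maxDegree + 1 : ℕ) : ℕ∞) ↔
        ∃ s : ℕ, 2 * s + 1 ≤ r ∧
          ∃ S : Finset (Fin (2 * n + 1)), S.card = 2 * s ∧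
            ((({e ∈ G.edgeSet | ∀ v ∈ S, v ∉ e}).ncard : ℤ) >
              (((2 * n + 1 - 2 * s).choose 2 : ℕ) : ℤ) - ((r : ℤ) - 2 * s) * ((n : ℤ) - s))) :=
  Pool.Agent.MP_5c8b6d_co.main_of Pool.Agent.MP_5c8b6d_co.viz Pool.Agent.MP_5c8b6d_co.ovf

end Pool.Agent.Results.MP_5c8b6d_co.LargeOrder
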